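import Pool.Agent.Helper17.KA.L1Defs

/-!
KA, r = 1, module B1: power series with a given logarithmic derivative.
-/

set_option autoImplicit false

namespace Pool.Agent.Helper79.KA2

open Pool.Agent.Helper17.KA PowerSeries

/-- The coefficients of the solution of `T U' = U * ∑ u_N T^N`. -/
noncomputable def uc (u : ℕ → ℚ) : ℕ → ℚ
  | 0 => 1
  | N + 1 => (∑ j : Fin (N + 1), uc u j * u (N + 1 - j)) / ((N : ℚ) + 1)

theorem uc_zero (u : ℕ → ℚ) : uc u 0 = 1 := by rw [uc]

theorem uc_succ (u : ℕ → ℚ) (N : ℕ) :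
    uc u (N + 1) * ((N : ℚ) + 1) = ∑ j ∈ Finset.range (N + 1), uc u j * u (N + 1 - j) := by
  have h : ((N : ℚ) + 1) ≠ 0 := by positivity
  rw [uc, div_mul_cancel₀ _ h, Finset.sum_range]

theorem hockey (C N : ℕ) :
    ∑ j ∈ Finset.range (N + 1), (j + C).choose C = (N + 1 + C).choose (C + 1) := by
  induction N with
  | zero => simp [add_comm]
  | succ N ih =>
    rw [Finset.sum_range_succ, ih, show N + 1 + 1 + C = (N + 1 + C) + 1 by ring,
      Nat.choose_succ_succ' (N + 1 + C) C]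
    ring

theorem hockey' (C N : ℕ) :
    (C + 1) * ∑ j ∈ Finset.range (N + 1), (j + C).choose C = (N + 1) * (N + 1 + C).choose C := by
  rw [hockey, mul_comm, Nat.choose_succ_right_eq, mul_comm]
  congr 1
  omega

theorem uc_bound {C : ℕ} {R : ℝ} (hR : 0 < R) {u : ℕ → ℚ}
    (hu : ∀ N, |(u N : ℝ)| ≤ ((C : ℝ) + 1) * R ^ N) (N : ℕ) :
    |((uc u N : ℚ) : ℝ)| ≤ ((N + C).choose C : ℝ) * R ^ N := by
  induction N using Nat.strong_induction_on with
  | _ N ih =>
    rcases N with _ | N
    · rw [uc_zero]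
      simp
    · have h1 : ((uc u (N + 1) : ℚ) : ℝ) * ((N : ℝ) + 1) =
          ∑ j ∈ Finset.range (N + 1), ((uc u j : ℚ) : ℝ) * ((u (N + 1 - j) : ℚ) : ℝ) := by
        have := uc_succ u N
        exact_mod_cast this
      have h2 : |((uc u (N + 1) : ℚ) : ℝ)| * ((N : ℝ) + 1) ≤
          ∑ j ∈ Finset.range (N + 1), ((j + C).choose C : ℝ) * (((C : ℝ) + 1) * R ^ (N + 1)) := by
        calc |((uc u (N + 1) : ℚ) : ℝ)| * ((N : ℝ) + 1) =
              |((uc u (N + 1) : ℚ) : ℝ) * ((N : ℝ) + 1)| := by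
              rw [abs_mul, abs_of_nonneg (show (0:ℝ) ≤ (N : ℝ) + 1 by positivity)]
          _ ≤ ∑ j ∈ Finset.range (N + 1), |((uc u j : ℚ) : ℝ) * ((u (N + 1 - j) : ℚ) : ℝ)| := by
              rw [h1]
              exact Finset.abs_sum_le_sum_abs _ _
          _ ≤ _ := by
              apply Finset.sum_le_sum
              intro j hj
              rw [Finset.mem_range] at hj
              rw [abs_mul]
              have h3 : R ^ (N + 1) = R ^ j * R ^ (N + 1 - j) := by
                rw [← pow_add]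
                congr 1
                omega
              calc |((uc u j : ℚ) : ℝ)| * |((u (N + 1 - j) : ℚ) : ℝ)| ≤
                    (((j + C).choose C : ℝ) * R ^ j) * (((C : ℝ) + 1) * R ^ (N + 1 - j)) :=
                    mul_le_mul (ih j hj) (hu _) (abs_nonneg _) (by positivity)
                _ = _ := by rw [h3]; ring
      have h4 : ∑ j ∈ Finset.range (N + 1), ((j + C).choose C : ℝ) * (((C : ℝ) + 1) * R ^ (N + 1)) =
          (((N + 1 + C).choose C : ℝ) * R ^ (N + 1)) * ((N : ℝ) + 1) := by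
        rw [← Finset.sum_mul]
        have h5 : ((C : ℝ) + 1) * ∑ j ∈ Finset.range (N + 1), ((j + C).choose C : ℝ) =
            ((N : ℝ) + 1) * ((N + 1 + C).choose C : ℝ) := by
          exact_mod_cast hockey' C N
        linear_combination R ^ (N + 1) * h5
      rw [h4] at h2
      exact le_of_mul_le_mul_right h2 (by positivity)

theorem exists_one {C : ℕ} {R : ℝ} (hR : 0 < R) {u : ℕ → ℚ} (h0 : u 0 = 0)
    (hu : ∀ N, |(u N : ℝ)| ≤ ((C : ℝ) + 1) * R ^ N) :
    ∃ U : PowerSeries ℚ, constantCoeff U = 1 ∧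
      (X : PowerSeries ℚ) * derivative ℚ U = U * mk u ∧ Conv R⁻¹ U := by
  refine ⟨mk (uc u), ?_, ?_, ?_⟩
  · rw [← coeff_zero_eq_constantCoeff_apply, coeff_mk, uc_zero]
  · ext N
    rcases N with _ | N
    · rw [coeff_zero_X_mul, coeff_mul]
      simp [h0]
    · rw [coeff_succ_X_mul, coeff_derivative, coeff_mk, uc_succ, coeff_mul,
        Finset.Nat.sum_antidiagonal_eq_sum_range_succ
          (fun i j => coeff i (mk (uc u)) * coeff j (mk u)), Finset.sum_range_succ _ (N + 1)]
      simp only [coeff_mk, Nat.sub_self, h0, mul_zero, add_zero]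
  · intro r hr hrR
    have hq : ‖r * R‖ < 1 := by
      rw [Real.norm_of_nonneg (by positivity)]
      calc r * R < R⁻¹ * R := by gcongr
        _ = 1 := inv_mul_cancel₀ hR.ne'
    have hs := summable_choose_mul_geometric_of_norm_lt_one (R := ℝ) C hq
    refine Summable.of_nonneg_of_le (fun N => by positivity) (fun N => ?_) hs
    rw [coeff_mk]
    calc |((uc u N : ℚ) : ℝ)| * r ^ N ≤ (((N + C).choose C : ℝ) * R ^ N) * r ^ N := by
          gcongr
          exact uc_bound hR hu N
      _ = ((N + C).choose C : ℝ) * (r * R) ^ N := by rw [mul_pow]; ring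

/-- B1 -/
theorem exists_exp (C : ℕ) (R : ℝ) (hR : 0 < R) (u : ℕ → ℚ) (h0 : u 0 = 0)
    (hu : ∀ N, |(u N : ℝ)| ≤ C * R ^ N) :
    ∃ U V : PowerSeries ℚ, constantCoeff U = 1 ∧
      (X : PowerSeries ℚ) * derivative ℚ U = U * mk u ∧ U * V = 1 ∧ Conv R⁻¹ U ∧ Conv R⁻¹ V := by
  have hu' : ∀ N, |(u N : ℝ)| ≤ ((C : ℝ) + 1) * R ^ N := by
    intro N
    refine (hu N).trans ?_
    have : 0 < R ^ N := by positivity
    nlinarith
  obtain ⟨U, hU1, hU2, hU3⟩ := exists_one hR h0 hu'
  have h0' : (fun N => -u N) 0 = 0 := by simp [h0]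
  obtain ⟨V, hV1, hV2, hV3⟩ := exists_one (C := C) hR h0' (fun N => by
    have := hu' N
    rw [Rat.cast_neg, abs_neg]
    exact this)
  refine ⟨U, V, hU1, hU2, ?_, hU3, hV3⟩
  have hneg : mk (fun N => -u N) = -(mk u : PowerSeries ℚ) := by
    ext N
    simp
  rw [hneg] at hV2
  have hD : derivative ℚ (U * V) = 0 := by
    have h1 : (X : PowerSeries ℚ) * derivative ℚ (U * V) = X * 0 := by
      rw [Derivation.leibniz, smul_eq_mul, smul_eq_mul]
      linear_combination U * hV2 + V * hU2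
    exact mul_left_cancel₀ X_ne_zero h1
  apply derivative.ext
  · rw [hD, Derivation.map_one_eq_zero]
  · rw [map_mul, hU1, hV1, mul_one, map_one]

end Pool.Agent.Helper79.KA2
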