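import Pool.Agent.Helper79.KA2.Par
import Pool.Agent.Helper17.KA.CodA

set_option autoImplicit false
set_option linter.unusedSectionVars false

/-!
Project KA (MP_0b9e0b_ag), cycles of codimension two: the Chow group of `YV a c τ` vanishes in
codimension one if `YV a c τ` is a linear subspace.
-/

namespace Pool.Agent.Helper79.KA2

open Pool.Agent.Helper1.KL (Key key fld rat coef IT)
open Pool.Agent.Helper1.KA
open Pool.Agent.Helper17.KA
open Pool.Agent.Helper19.KL (coef_ne mem_IT rank_zero_of)

variable {k : Type} [Field k] {p a : ℕ} [Fact p.Prime] [CharP k p] {n : ℕ} {c : Fin n → k}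
  {τ : Fin n → Option (ZMod p)}

theorem coef_zero {o : Fin n} {s : Finset (Fin n)} (hs : sp τ = s) (h : o ∉ s) :
    coef τ o = 0 := by
  by_contra h1
  rw [← hs] at h
  exact h (Finset.mem_filter.2 ⟨Finset.mem_univ _, h1⟩)

/-- The form of degree `a` vanishes on the hyperplane. -/
theorem yv_of_flat (ha : 2 ≤ a) (hflat : Flat a c τ) {M : Type} [Field M] [Algebra k M]
    {w : Fin n → Option M} (hn : ∀ i, τ i = none ↔ w i = none) (hB : Bfun τ w = 0) :
    YV a c τ M w := by
  classical
  refine ⟨⟨hn, ?_⟩, hB⟩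
  unfold Bfun at hB
  rcases hflat with ⟨i, hi⟩ | ⟨i, j, hij, hI, h0⟩
  · have hci : coef τ i ≠ 0 := by
      have h1 : i ∈ sp τ := by rw [hi]; exact Finset.mem_singleton_self i
      exact (Finset.mem_filter.1 h1).2
    have hM := coef_cast_ne k M hci
    rw [← Finset.sum_subset (Finset.subset_univ ({i} : Finset (Fin n))) fun o _ ho => by
      rw [coef_zero hi ho, Nat.cast_zero, zero_mul], Finset.sum_singleton] at hB
    rw [← Finset.sum_subset (Finset.subset_univ ({i} : Finset (Fin n))) fun o _ ho => by
      rw [coef_zero hi ho, Nat.cast_zero, zero_mul, zero_mul], Finset.sum_singleton]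
    have h1 : (w i).getD 0 = 0 := (mul_eq_zero.1 hB).resolve_left hM
    rw [h1, zero_pow (by omega), mul_zero]
  · have hcj : coef τ j ≠ 0 := by
      have h1 : j ∈ sp τ := by rw [hI]; simp
      exact (Finset.mem_filter.1 h1).2
    have hM := coef_cast_ne k M hcj
    rw [← Finset.sum_subset (Finset.subset_univ ({i, j} : Finset (Fin n))) fun o _ ho => by
      rw [coef_zero hI ho, Nat.cast_zero, zero_mul], Finset.sum_pair hij] at hB
    rw [← Finset.sum_subset (Finset.subset_univ ({i, j} : Finset (Fin n))) fun o _ ho => by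
      rw [coef_zero hI ho, Nat.cast_zero, zero_mul, zero_mul], Finset.sum_pair hij]
    have h1 : (w j).getD 0 = (-(coef τ i : M) / (coef τ j : M)) * (w i).getD 0 := by
      field_simp
      linear_combination hB
    have h2 := congrArg (algebraMap k M) h0
    simp only [map_add, map_mul, map_pow, map_div₀, map_neg, map_natCast, map_zero] at h2
    rw [h1, mul_pow]
    linear_combination (w i).getD 0 ^ a * h2

/-- The coordinates as polynomials in all finite coordinates but one. -/
noncomputable def sL (k : Type) [Field k] {p n : ℕ} (τ : Fin n → Option (ZMod p)) (i : Fin n) :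
    Fin n → Option (MvPolynomial {o // o ∈ (IT τ).erase i} k) := fun o =>
  (τ o).map fun _ => LL k τ i o

theorem sL_none (i o : Fin n) : sL k τ i o = none ↔ τ o = none := by
  unfold sL
  rw [Option.map_eq_none_iff]

theorem sL_getD {i : Fin n} (hi : coef τ i ≠ 0) (o : Fin n) :
    (sL k τ i o).getD 0 = LL k τ i o := by
  unfold sL
  cases h : τ o with
  | some ρ => rfl
  | none =>
    have h1 : o ∉ (IT τ).erase i := fun h2 => mem_IT.1 (Finset.mem_of_mem_erase h2) h
    have h2 : o ≠ i := by
      rintro rfl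
      exact coef_ne hi h
    unfold LL
    rw [dif_neg h1, if_neg h2]
    rfl

theorem bfun_pt {i : Fin n} (hi : coef τ i ≠ 0) {M : Type} [Field M] [Algebra k M]
    (x : {o // o ∈ (IT τ).erase i} → M) : Bfun τ (pt (sL k τ i) x) = 0 := by
  classical
  unfold Bfun
  simp only [pt_getD, sL_getD hi]
  have hik : (coef τ i : k) ≠ 0 := coef_cast_ne k k hi
  have hiM : (coef τ i : M) ≠ 0 := coef_cast_ne k M hi
  rw [← Finset.add_sum_erase Finset.univ _ (Finset.mem_univ i)]
  have h1 : ∀ o ∈ Finset.univ.erase i, o ∉ (IT τ).erase i →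
      (coef τ o : M) * MvPolynomial.aeval x (LL k τ i o) = 0 := by
    intro o ho ho'
    have h3 : τ o = none := by
      by_contra h4
      exact ho' (Finset.mem_erase.2 ⟨(Finset.mem_erase.1 ho).1, mem_IT.2 h4⟩)
    rw [coef_none h3, Nat.cast_zero, zero_mul]
  rw [← Finset.sum_subset (Finset.erase_subset_erase _ (Finset.subset_univ _)) h1]
  have h2 : LL k τ i i = -∑ b : {o // o ∈ (IT τ).erase i},
      MvPolynomial.C ((coef τ b : k) / (coef τ i : k)) * MvPolynomial.X b := by
    unfold LL
    rw [dif_neg (Finset.notMem_erase i _), if_pos rfl]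
  rw [h2, map_neg, map_sum, ← Finset.sum_coe_sort ((IT τ).erase i) fun o =>
    (coef τ o : M) * MvPolynomial.aeval x (LL k τ i o)]
  have h3 : ∀ b : {o // o ∈ (IT τ).erase i}, (coef τ b : M) *
      MvPolynomial.aeval x (LL k τ i b) = (coef τ b : M) * x b := by
    intro b
    unfold LL
    rw [dif_pos b.2, MvPolynomial.aeval_X]
  have h4 : ∀ b : {o // o ∈ (IT τ).erase i}, (coef τ i : M) *
      MvPolynomial.aeval x (MvPolynomial.C ((coef τ b : k) / (coef τ i : k)) *
        MvPolynomial.X b) = (coef τ b : M) * x b := by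
    intro b
    rw [map_mul, MvPolynomial.aeval_C, MvPolynomial.aeval_X, map_div₀, map_natCast, map_natCast]
    field_simp
  rw [Finset.sum_congr rfl fun b _ => h3 b, mul_neg, Finset.mul_sum,
    Finset.sum_congr rfl fun b _ => h4 b]
  ring

theorem par_of_flat (ha : 2 ≤ a) (hflat : Flat a c τ) {i : Fin n} (hi : coef τ i ≠ 0) :
    Par (YV a c τ) (sL k τ i) fun b : {o // o ∈ (IT τ).erase i} => (b : Fin n) where
  param := by
    intro b
    have h1 : τ b ≠ none := mem_IT.1 (Finset.mem_of_mem_erase b.2)
    obtain ⟨ρ, hρ⟩ := Option.ne_none_iff_exists'.1 h1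
    unfold sL
    rw [hρ, Option.map_some]
    unfold LL
    rw [dif_pos b.2]
  mem := by
    intro M _ _ w
    constructor
    · intro hw
      refine ⟨fun b => (w b).getD 0, ?_⟩
      change w = pt (sL k τ i) fun b => (w b).getD 0
      funext o
      by_cases ho : τ o = none
      · rw [(hw.1.1 o).1 ho, (pt_none _ _ _).2 ((sL_none i o).2 ho)]
      · have h1 := eval_LL hi hw o
        have h2 := pt_getD (sL k τ i) (fun b : {o // o ∈ (IT τ).erase i} => (w b).getD 0) o
        rw [sL_getD hi, ← h1] at h2
        cases h3 : w o with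
        | none => exact absurd ((hw.1.1 o).2 h3) ho
        | some e =>
          cases h4 : pt (sL k τ i) (fun b : {o // o ∈ (IT τ).erase i} => (w b).getD 0) o with
          | none => exact absurd ((sL_none i o).1 ((pt_none _ _ _).1 h4)) ho
          | some e' =>
            rw [h3, h4] at h2
            simp only [Option.getD_some] at h2
            rw [h2]
    · rintro ⟨x, rfl⟩
      change YV a c τ M (pt (sL k τ i) x)
      refine yv_of_flat ha hflat (fun o => ?_) (bfun_pt hi x)
      rw [pt_none, sL_none]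

theorem exists_coef (hflat : Flat a c τ) : ∃ i, coef τ i ≠ 0 := by
  have h : ∀ {i : Fin n}, i ∈ sp τ → coef τ i ≠ 0 := fun hi => (Finset.mem_filter.1 hi).2
  rcases hflat with ⟨i, hi⟩ | ⟨i, j, -, hI, -⟩
  · exact ⟨i, h (by rw [hi]; exact Finset.mem_singleton_self i)⟩
  · exact ⟨i, h (by rw [hI]; simp)⟩

/-- Cycles of codimension one on a linear subspace. -/
theorem rank_flat_gen (ha : 2 ≤ a) (hflat : Flat a c τ) {r : ℕ} (hr : r + 2 = (IT τ).card) :
    Module.rank ℚ (CHY a c τ r) = 0 := by
  classical
  obtain ⟨i, hi⟩ := exists_coef hflat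
  refine rank_zero_of fun N _ _ x hx hxr => ?_
  refine (par_of_flat ha hflat hi).mem_rat (fun M _ _ w f hw => Or.inl hw) ?_ hx hxr
  rw [Nat.card_eq_fintype_card, Fintype.card_coe,
    Finset.card_erase_of_mem (mem_IT.2 (coef_ne hi))]
  omega

/-- Cycles of codimension one on a linear subspace, if all coordinates are finite. -/
theorem rank_flat (ha : 2 ≤ a) (hfin : ∀ o, τ o ≠ none) (hflat : Flat a c τ) {r : ℕ}
    (hr : r + 2 = n) : Module.rank ℚ (CHY a c τ r) = 0 := by
  refine rank_flat_gen ha hflat ?_
  have h1 : IT τ = Finset.univ := by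
    ext o
    simp [mem_IT, hfin o]
  rw [h1, Finset.card_univ, Fintype.card_fin, hr]

end Pool.Agent.Helper79.KA2
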