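import Pool.Agent.Helper19.KL.N1
import Pool.Agent.HC.Same

set_option autoImplicit false

/-!
Project KA, cycles of codimension one and two: varieties parametrised by an affine space `A^m`;
all points of dimension `m` have the same closure, and all cycles of dimension `m - 1` are
divisors of polynomials.
-/

namespace Pool.Agent.Helper79.KA2

open Pool.Agent.Helper16
open Pool.Agent.Helper1.KL (Var VarF Key key fld spec rat At0 key_eq_iff restr restr_map key_restr
  fld_restr trdeg_fld_restr trdeg_fld_map essFiniteType_fld fld_eq_range key_map)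
open Pool.Agent.Helper19.KL (homK)

section par

variable {F σ ι : Type} [Field F]

/-- The points of `V` are the values of the polynomials `s j`; the coordinates with the numbers
`c i` are the parameters. -/
structure Par (V : Var F σ) (s : σ → Option (MvPolynomial ι F)) (c : ι → σ) : Prop where
  param : ∀ i, s (c i) = some (MvPolynomial.X i)
  mem : ∀ (M : Type) [Field M] [Algebra F M] (w : σ → Option M), V M w ↔
    ∃ x : ι → M, w = fun j => (s j).map (MvPolynomial.aeval x)

variable {N N' : Type} [Field N] [Algebra F N] [Field N'] [Algebra F N']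

/-- The point with given parameters. -/
noncomputable def pt (s : σ → Option (MvPolynomial ι F)) (x : ι → N) : σ → Option N :=
  fun j => (s j).map (MvPolynomial.aeval x)

theorem pt_none (s : σ → Option (MvPolynomial ι F)) (x : ι → N) (j : σ) :
    pt s x j = none ↔ s j = none := by
  unfold pt
  rw [Option.map_eq_none_iff]

theorem pt_getD (s : σ → Option (MvPolynomial ι F)) (x : ι → N) (j : σ) :
    (pt s x j).getD 0 = MvPolynomial.aeval x ((s j).getD 0) := by
  unfold pt
  cases s j with
  | none => simp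
  | some q => rfl

theorem map_aeval {A B : Type} [CommRing A] [CommRing B] [Algebra F A] [Algebra F B]
    (φ : A →ₐ[F] B) (x : ι → A) (Q : MvPolynomial ι F) :
    φ (MvPolynomial.aeval x Q) = MvPolynomial.aeval (fun i => φ (x i)) Q := by
  rw [MvPolynomial.comp_aeval_apply]

/-- The values of polynomials at a point with given parameters. -/
theorem aeval_pt (s : σ → Option (MvPolynomial ι F)) (x : ι → N) (Q : MvPolynomial σ F) :
    MvPolynomial.aeval (fun j => (pt s x j).getD 0) Q =
      MvPolynomial.aeval x (MvPolynomial.aeval (fun j => (s j).getD 0) Q) := by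
  have h : (MvPolynomial.aeval (fun j => (pt s x j).getD 0) : MvPolynomial σ F →ₐ[F] N) =
      (MvPolynomial.aeval x).comp (MvPolynomial.aeval (fun j => (s j).getD 0)) := by
    apply MvPolynomial.algHom_ext
    intro j
    rw [MvPolynomial.aeval_X, AlgHom.comp_apply, MvPolynomial.aeval_X, pt_getD]
  rw [h]
  rfl

theorem fld_pt {V : Var F σ} {s : σ → Option (MvPolynomial ι F)} {c : ι → σ} (h : Par V s c)
    (x : ι → N) : fld F (pt s x) = IntermediateField.adjoin F (Set.range x) := by
  refine le_antisymm ?_ ?_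
  · rw [fld_eq_range, IntermediateField.adjoin_le_iff]
    rintro _ ⟨j, rfl⟩
    simp only [pt_getD]
    have h1 : MvPolynomial.aeval x ((s j).getD 0) ∈ Algebra.adjoin F (Set.range x) := by
      rw [Algebra.adjoin_range_eq_range_aeval]
      exact ⟨_, rfl⟩
    exact (IntermediateField.algebra_adjoin_le_adjoin F _) h1
  · rw [IntermediateField.adjoin_le_iff]
    rintro _ ⟨i, rfl⟩
    refine IntermediateField.subset_adjoin F _ ⟨c i, ?_⟩
    unfold pt
    rw [h.param i, Option.map_some, MvPolynomial.aeval_X]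

theorem trdeg_pt {V : Var F σ} {s : σ → Option (MvPolynomial ι F)} {c : ι → σ} (h : Par V s c)
    (x : ι → N) : Algebra.trdeg F (fld F (pt s x)) =
      Algebra.trdeg F (MvPolynomial ι F ⧸ RingHom.ker (MvPolynomial.aeval (R := F) x)) := by
  rw [fld_pt h, HC.trdeg_quot_ker]

/-- Keys of points of `V`. -/
theorem key_pt (s : σ → Option (MvPolynomial ι F)) (x : ι → N) (y : ι → N')
    (h : ∀ P : MvPolynomial ι F, MvPolynomial.aeval x P = 0 ↔ MvPolynomial.aeval y P = 0) :
    key F (pt s x) = key F (pt s y) := by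
  rw [key_eq_iff]
  refine ⟨fun j => by rw [pt_none, pt_none], fun Q => ?_⟩
  rw [aeval_pt, aeval_pt]
  exact h _

/-- The polynomials vanishing at a point of full dimension. -/
theorem ker_eq_bot [Finite ι] {x : ι → N} {m : ℕ} (hm : Nat.card ι = m)
    (hx : (m : Cardinal) ≤ Algebra.trdeg F
      (MvPolynomial ι F ⧸ RingHom.ker (MvPolynomial.aeval (R := F) x))) :
    RingHom.ker (MvPolynomial.aeval (R := F) x) = ⊥ := by
  by_contra hne
  have hlt : (⊥ : Ideal (MvPolynomial ι F)) < RingHom.ker (MvPolynomial.aeval (R := F) x) :=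
    bot_lt_iff_ne_bot.2 hne
  have h1 := PL.trdeg_lt (κ := F) _ _ Ideal.isPrime_bot (RingHom.ker_isPrime _) hlt m hx
  have e : (MvPolynomial ι F ⧸ (⊥ : Ideal (MvPolynomial ι F))) ≃ₐ[F] MvPolynomial ι F :=
    AlgEquiv.quotientBot F _
  rw [e.trdeg_eq, MvPolynomial.trdeg_of_isDomain, Cardinal.lift_id, ← Nat.cast_card, hm,
    Nat.cast_le] at h1
  omega

/-- All points of full dimension have the same closure. -/
theorem Par.key_unique [Finite ι] {V : Var F σ} {s : σ → Option (MvPolynomial ι F)} {c : ι → σ}
    (h : Par V s c) {m : ℕ} (hm : Nat.card ι = m) {w : σ → Option N} {w' : σ → Option N'}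
    (hw : V N w) (hw' : V N' w') (hr : Algebra.trdeg F (fld F w) = m)
    (hr' : Algebra.trdeg F (fld F w') = m) : key F w = key F w' := by
  obtain ⟨x, rfl⟩ := (h.mem N w).1 hw
  obtain ⟨y, rfl⟩ := (h.mem N' w').1 hw'
  change Algebra.trdeg F (fld F (pt s x)) = m at hr
  change Algebra.trdeg F (fld F (pt s y)) = m at hr'
  rw [trdeg_pt h] at hr hr'
  have h1 := ker_eq_bot hm hr.ge
  have h2 := ker_eq_bot hm hr'.ge
  refine key_pt s x y fun P => ?_
  rw [← RingHom.mem_ker, ← RingHom.mem_ker]
  change P ∈ RingHom.ker (MvPolynomial.aeval (R := F) x) ↔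
    P ∈ RingHom.ker (MvPolynomial.aeval (R := F) y)
  rw [h1, h2]

/-- The dimension of a point is at most the number of parameters. -/
theorem Par.trdeg_le [Finite ι] {V : Var F σ} {s : σ → Option (MvPolynomial ι F)} {c : ι → σ}
    (h : Par V s c) {m : ℕ} (hm : Nat.card ι = m) {w : σ → Option N} (hw : V N w) :
    Algebra.trdeg F (fld F w) ≤ m := by
  obtain ⟨x, rfl⟩ := (h.mem N w).1 hw
  change Algebra.trdeg F (fld F (pt s x)) ≤ m
  rw [trdeg_pt h]
  have h1 := trdeg_le_of_surjective (Ideal.Quotient.mkₐ F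
    (RingHom.ker (MvPolynomial.aeval (R := F) x))) (Ideal.Quotient.mkₐ_surjective F _)
  rwa [MvPolynomial.trdeg_of_isDomain, Cardinal.lift_id, ← Nat.cast_card, hm] at h1

/-- The equation of a point of codimension one. -/
theorem exists_eq [Finite ι] {x : ι → N} {r : ℕ} (hm : Nat.card ι = r + 1)
    (hx : Algebra.trdeg F
      (MvPolynomial ι F ⧸ RingHom.ker (MvPolynomial.aeval (R := F) x)) = r) :
    ∃ P : MvPolynomial ι F, P ≠ 0 ∧ MvPolynomial.aeval x P = 0 ∧
      ∀ Q : MvPolynomial ι F, MvPolynomial.aeval x Q = 0 → P ∣ Q := by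
  have e : (MvPolynomial ι F ⧸ (⊥ : Ideal (MvPolynomial ι F))) ≃ₐ[F] MvPolynomial ι F :=
    AlgEquiv.quotientBot F _
  have hb : Algebra.trdeg F (MvPolynomial ι F ⧸ (⊥ : Ideal (MvPolynomial ι F))) =
      ((r + 1 : ℕ) : Cardinal) := by
    rw [e.trdeg_eq, MvPolynomial.trdeg_of_isDomain, Cardinal.lift_id, ← Nat.cast_card, hm]
  have hp : (RingHom.ker (MvPolynomial.aeval (R := F) x)).IsPrime := RingHom.ker_isPrime _
  have hne : RingHom.ker (MvPolynomial.aeval (R := F) x) ≠ ⊥ := by
    intro h0
    rw [h0, hb, Nat.cast_inj] at hx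
    omega
  obtain ⟨P, hP, hPp⟩ := hp.exists_mem_prime_of_ne_bot hne
  refine ⟨P, hPp.ne_zero, hP, fun Q hQ => ?_⟩
  have hsp : (Ideal.span {P}).IsPrime := (Ideal.span_singleton_prime hPp.ne_zero).2 hPp
  have hle : Ideal.span {P} ≤ RingHom.ker (MvPolynomial.aeval (R := F) x) := by
    rw [Ideal.span_singleton_le_iff_mem]
    exact hP
  have heq : Ideal.span {P} = RingHom.ker (MvPolynomial.aeval (R := F) x) := by
    by_contra hne'
    have h1 := PL.trdeg_lt (κ := F) _ _ hsp hp (lt_of_le_of_ne hle hne') r hx.ge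
    have hlt : (⊥ : Ideal (MvPolynomial ι F)) < Ideal.span {P} := by
      rw [bot_lt_iff_ne_bot, Ne, Ideal.span_singleton_eq_bot]
      exact hPp.ne_zero
    have h2 := PL.trdeg_lt (κ := F) _ _ Ideal.isPrime_bot hsp hlt (r + 1) h1
    rw [hb, Nat.cast_le] at h2
    omega
  have hQ' : Q ∈ RingHom.ker (MvPolynomial.aeval (R := F) x) := hQ
  rwa [← heq, Ideal.mem_span_singleton] at hQ'

/-- A value of a polynomial which is not zero, over a finite extension. -/
theorem exists_val [Finite ι] (κ : Type) [Field κ] [Algebra F κ] {P : MvPolynomial ι F}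
    (hP : P ≠ 0) : ∃ (L : Type) (_ : Field L) (_ : Algebra F L) (_ : Algebra κ L)
      (_ : IsScalarTower F κ L) (_ : FiniteDimensional κ L) (y : ι → L),
      MvPolynomial.aeval y P ≠ 0 := by
  obtain ⟨y, hy⟩ : ∃ y : ι → AlgebraicClosure κ, MvPolynomial.aeval y P ≠ 0 := by
    by_contra hcon
    push Not at hcon
    apply hP
    apply MvPolynomial.map_injective (algebraMap F (AlgebraicClosure κ))
      (algebraMap F (AlgebraicClosure κ)).injective
    rw [map_zero]
    apply MvPolynomial.funext
    intro x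
    rw [MvPolynomial.eval_map, map_zero]
    exact hcon x
  let L : IntermediateField κ (AlgebraicClosure κ) := IntermediateField.adjoin κ (Set.range y)
  have hy' : ∀ i, y i ∈ L := fun i => IntermediateField.subset_adjoin κ _ ⟨i, rfl⟩
  have hfin : FiniteDimensional κ L :=
    IntermediateField.finiteDimensional_adjoin fun x _ => Algebra.IsIntegral.isIntegral x
  refine ⟨L, inferInstance, inferInstance, inferInstance, inferInstance, hfin,
    fun i => ⟨y i, hy' i⟩, fun h0 => hy ?_⟩
  have h1 := congrArg (L.val.restrictScalars F) h0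
  rw [map_zero, map_aeval] at h1
  exact h1

theorem at0_algebraMap (f : Polynomial N) (a : N) (h : f.eval 0 = a) :
    At0 (algebraMap (Polynomial N) (RatFunc N) f) a :=
  ⟨f, 1, by simp, h, by simp⟩

/-- Cycles of codimension one on a variety parametrised by an affine space. -/
theorem Par.mem_rat [Finite ι] [Finite σ] {V : Var F σ} {s : σ → Option (MvPolynomial ι F)}
    {c : ι → σ} (h : Par V s c) {P : VarF F σ}
    (hP : ∀ (M : Type) [Field M] [Algebra F M] (w : σ → Option M) (f : M), V M w → P M w f)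
    {r : ℕ} (hm : Nat.card ι = r + 1) {w : σ → Option N} (hw : V N w)
    (hr : Algebra.trdeg F (fld F w) = r) : Finsupp.single (key F w) 1 ∈ rat V P r := by
  classical
  obtain ⟨x, rfl⟩ := (h.mem N w).1 hw
  change Algebra.trdeg F (fld F (pt s x)) = r at hr
  change Finsupp.single (key F (pt s x)) 1 ∈ rat V P r
  have hr0 := hr
  rw [trdeg_pt h] at hr0
  obtain ⟨G, hG0, hGx, hG⟩ := exists_eq hm hr0
  -- the field
  obtain ⟨L, _, _, _, _, _, y, hy⟩ := exists_val (fld F (pt s x)) hG0
  have hmem : ∀ i, x i ∈ fld F (pt s x) := fun i => by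
    rw [fld_pt h]
    exact IntermediateField.subset_adjoin F _ ⟨i, rfl⟩
  let x0 : ι → fld F (pt s x) := fun i => ⟨x i, hmem i⟩
  let xL : ι → L := fun i => algebraMap (fld F (pt s x)) L (x0 i)
  have hrel : ∀ Q : MvPolynomial ι F, MvPolynomial.aeval xL Q = 0 ↔
      MvPolynomial.aeval x Q = 0 := by
    intro Q
    have h1 : MvPolynomial.aeval xL Q =
        (IsScalarTower.toAlgHom F (fld F (pt s x)) L) (MvPolynomial.aeval x0 Q) := by
      rw [map_aeval]
      rfl
    have h2 : MvPolynomial.aeval x Q = (fld F (pt s x)).val (MvPolynomial.aeval x0 Q) := by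
      rw [map_aeval]
      rfl
    have h3 : (IsScalarTower.toAlgHom F (fld F (pt s x)) L) (MvPolynomial.aeval x0 Q) = 0 ↔
        MvPolynomial.aeval x0 Q = 0 :=
      map_eq_zero_iff _ (IsScalarTower.toAlgHom F (fld F (pt s x)) L).toRingHom.injective
    have h4 : (fld F (pt s x)).val (MvPolynomial.aeval x0 Q) = 0 ↔
        MvPolynomial.aeval x0 Q = 0 :=
      map_eq_zero_iff _ (fld F (pt s x)).val.toRingHom.injective
    rw [h1, h2, h3, h4]
  have hkey : key F (pt s xL) = key F (pt s x) := key_pt s xL x hrel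
  have hker : RingHom.ker (MvPolynomial.aeval (R := F) xL) =
      RingHom.ker (MvPolynomial.aeval (R := F) x) := by
    ext Q
    exact hrel Q
  have hrL : Algebra.trdeg F (fld F (pt s xL)) = r := by
    rw [trdeg_pt h, hker]
    exact hr0
  have hEss : Algebra.EssFiniteType F L := by
    haveI := essFiniteType_fld (F := F) (pt s x)
    haveI : Algebra.EssFiniteType (fld F (pt s x)) L := inferInstance
    exact Algebra.EssFiniteType.comp F (fld F (pt s x)) L
  have hTr : Algebra.trdeg F L = r := by
    rw [HC.trdeg_of_isAlgebraic F (fld F (pt s x)) (T := L)]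
    exact hr
  rw [← hkey]
  -- the moving point
  let U : ι → Polynomial L := fun i =>
    Polynomial.C (xL i) + Polynomial.X * Polynomial.C (y i - xL i)
  let u : ι → RatFunc L := fun i => algebraMap (Polynomial L) (RatFunc L) (U i)
  have hev : ∀ (Q : MvPolynomial ι F) (t : L), (MvPolynomial.aeval U Q).eval t =
      MvPolynomial.aeval (fun i => xL i + t * (y i - xL i)) Q := by
    intro Q t
    change (Polynomial.aeval t : Polynomial L →ₐ[L] L) (MvPolynomial.aeval U Q) = _
    have h2 : ((Polynomial.aeval t : Polynomial L →ₐ[L] L).restrictScalars F)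
        (MvPolynomial.aeval U Q) = MvPolynomial.aeval
          (fun i => ((Polynomial.aeval t : Polynomial L →ₐ[L] L).restrictScalars F) (U i)) Q := by
      rw [map_aeval]
    refine Eq.trans h2 ?_
    congr 2
    funext i
    simp only [U, AlgHom.coe_restrictScalars', map_add, map_mul, Polynomial.aeval_C,
      Polynomial.aeval_X]
    rfl
  have hev0 : ∀ Q : MvPolynomial ι F, (MvPolynomial.aeval U Q).eval 0 =
      MvPolynomial.aeval xL Q := by
    intro Q
    rw [hev]
    simp
  have hu : ∀ Q : MvPolynomial ι F, MvPolynomial.aeval u Q =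
      algebraMap (Polynomial L) (RatFunc L) (MvPolynomial.aeval U Q) := by
    intro Q
    have h1 : algebraMap (Polynomial L) (RatFunc L) (MvPolynomial.aeval U Q) =
        (IsScalarTower.toAlgHom F (Polynomial L) (RatFunc L)) (MvPolynomial.aeval U Q) := rfl
    rw [h1, map_aeval]
    rfl
  have hf : MvPolynomial.aeval u G ≠ 0 := by
    rw [hu, Ne, map_eq_zero_iff _ (IsFractionRing.injective (Polynomial L) (RatFunc L))]
    intro h0
    apply hy
    have h1 := hev G 1
    rw [h0, Polynomial.eval_zero] at h1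
    rw [h1]
    congr 2
    funext i
    ring
  have hVu : V (RatFunc L) (pt s u) := (h.mem _ _).2 ⟨u, rfl⟩
  refine homK (V := V) (P := P) hEss hTr (z := pt s xL) hrL ?_ (z' := pt s u)
    (hP _ _ (MvPolynomial.aeval u G) hVu) hf ?_ ?_ ?_ le_rfl ?_
  · intro N1 _ _ φ
    refine (h.mem _ _).2 ⟨fun i => φ (xL i), ?_⟩
    funext j
    unfold pt
    rw [Option.map_map]
    congr 1
    funext Q
    rw [Function.comp_apply, map_aeval]
  · intro j hj
    rw [pt_none] at hj ⊢
    exact hj
  · intro j a ha
    unfold pt at ha ⊢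
    cases hs : s j with
    | none =>
      rw [hs] at ha
      exact absurd ha (by simp)
    | some q =>
      rw [hs, Option.map_some] at ha
      refine ⟨MvPolynomial.aeval u q, rfl, ?_⟩
      rw [hu]
      refine at0_algebraMap _ _ ?_
      rw [hev0]
      exact Option.some.inj ha
  · rw [hu]
    refine at0_algebraMap _ _ ?_
    rw [hev0]
    exact (hrel G).2 hGx
  · intro v hv hVv hrv
    left
    obtain ⟨x1, hx1⟩ := (h.mem _ _).1 hVv
    have hx1' : spec v (pt s u) = pt s x1 := hx1
    -- the parameters are regular and specialise to `x1`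
    have hreg : ∀ i, u i ∈ v.ring ∧ v.res (u i) = x1 i := by
      intro i
      have h1 := congrFun hx1' (c i)
      unfold spec pt at h1
      rw [h.param i, Option.map_some, Option.map_some, Option.bind_some, MvPolynomial.aeval_X,
        MvPolynomial.aeval_X] at h1
      split_ifs at h1 with h2
      · exact ⟨h2, Option.some.inj h1⟩
    have hres : ∀ Q : MvPolynomial ι F, MvPolynomial.aeval u Q ∈ v.ring ∧
        v.res (MvPolynomial.aeval u Q) = MvPolynomial.aeval x1 Q := by
      intro Q
      induction Q using MvPolynomial.induction_on with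
      | C a =>
        rw [MvPolynomial.aeval_C, MvPolynomial.aeval_C]
        exact ⟨v.ring.algebraMap_mem a, v.res_algebraMap a⟩
      | add p q hp hq =>
        rw [map_add, map_add]
        exact ⟨add_mem hp.1 hq.1, by rw [v.res_add hp.1 hq.1, hp.2, hq.2]⟩
      | mul_X p i hp =>
        rw [map_mul, map_mul, MvPolynomial.aeval_X, MvPolynomial.aeval_X]
        exact ⟨mul_mem hp.1 (hreg i).1, by rw [v.res_mul hp.1 (hreg i).1, hp.2, (hreg i).2]⟩
    obtain ⟨h1, h2⟩ := hres G
    have hpos : 0 < v.ord (MvPolynomial.aeval u G) :=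
      lt_of_le_of_ne ((v.ord_nonneg_iff hf).2 h1) hv.symm
    have hG1 : MvPolynomial.aeval x1 G = 0 := by
      rw [← h2]
      exact (v.res_eq_zero_iff h1).2 ((v.ord_pos_iff hf).1 hpos)
    refine ⟨?_, hpos⟩
    rw [hx1'] at hrv ⊢
    refine (key_pt s xL x1 ?_).symm
    have h3 : ∀ Q : MvPolynomial ι F, MvPolynomial.aeval xL Q = 0 →
        MvPolynomial.aeval x1 Q = 0 := by
      intro Q hQ
      obtain ⟨R, rfl⟩ := hG Q ((hrel Q).1 hQ)
      rw [map_mul, hG1, zero_mul]
    refine HC.ker_le_of_tdeg xL x1 h3 ?_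
    have h4 := hrL
    have h5 := hrv
    rw [fld_pt h, HC.tdeg_spec (Set.finite_range _), Nat.cast_inj] at h4 h5
    rw [h4, h5]

end par

end Pool.Agent.Helper79.KA2
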